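import Pool.Agent.H.MP_80693f_an.A

namespace Pool.Agent.Results.MP_80693f_an.No

open MeasureTheory
open scoped ENNReal

/-- For every positive `ε` some positive `ε`-isometric operator is `1/3`-far from all isometries. -/
def Far (E F : Type) [NormedAddCommGroup E] [NormedSpace ℝ E] [LE E]
    [NormedAddCommGroup F] [NormedSpace ℝ F] [LE F] : Prop :=
  ∀ ε : ℝ, 0 < ε → ∃ T : E →L[ℝ] F, (∀ x, 0 ≤ x → 0 ≤ T x) ∧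
    (∀ x, (1 - ε) * ‖x‖ ≤ ‖T x‖ ∧ ‖T x‖ ≤ (1 + ε) * ‖x‖) ∧
    ∀ V : E →L[ℝ] F, (∀ x, ‖V x‖ = ‖x‖) → 1 / 3 ≤ ‖T - V‖

theorem result : ∃ (Ω₁ Ω₂ : Type) (_ : MeasurableSpace Ω₁) (_ : MeasurableSpace Ω₂)
    (μ₁ : Measure Ω₁) (μ₂ : Measure Ω₂), Far (Lp ℝ ∞ μ₁) (Lp ℝ ∞ μ₂) :=
  Pool.Agent.H.MP_80693f_an.main

end Pool.Agent.Results.MP_80693f_an.No
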